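import Pool.Agent.ShG.BRG

/-!
# Upper curvature gap for immersed self-shrinking hypersurfaces

For every `n ≥ 2` there is `c > 0` such that every properly immersed connected self-shrinker
`X : S → ℝ^{n+1}` with `|II|² < 1 + c` everywhere has as image a hyperplane through the origin, a
generalized round cylinder, or the product of a non-round Abresch–Langer curve with `ℝ^{n-1}`.
The definitions used in the statement are in `Pool/Agent/ShG/Model2.lean`.
-/

namespace Pool.Agent.Results.MP_61ae63_gt.UpperGap

open Pool.Agent.ShG.Mod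
open scoped BigOperators Topology ContDiff Manifold

/-- **Upper curvature gap for immersed self-shrinking hypersurfaces.** -/
theorem result : ∀ n : ℕ, 2 ≤ n → ∃ c : ℝ, 0 < c ∧
    ∀ (S : Type) [TopologicalSpace S] [T2Space S] [ConnectedSpace S]
      [ChartedSpace (EuclideanSpace ℝ (Fin n)) S] [IsManifold (𝓡 n) ∞ S]
      (X : S → EuclideanSpace ℝ (Fin (n + 1))), IsShrinker X → IsProperMap X →
      (∀ p, IIsq X p < 1 + c) →
      IsHyperplane (Set.range X) ∨
      (∃ k, 1 ≤ k ∧ k ≤ n ∧ Congr (Set.range X) (cylSet (n + 1) k)) ∨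
      (∃ γ, IsALCurve γ ∧ Set.range γ ≠ Metric.sphere 0 1 ∧
        Congr (Set.range X) (prodSet n γ)) :=
  Pool.Agent.ShG.BRG_main

end Pool.Agent.Results.MP_61ae63_gt.UpperGap
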